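import Pool.Agent.V11192.Torse.Graph

/-!
# Every C¹-smooth torse is a surface of bounded extrinsic curvature in the sense of Pogorelov

Positive answer to Q1. The definitions `IsSurface`, `tangentDir`, `IsTorse`, `IsUnitNormal`,
`sphereArea`, `IsBECP` are in `Pool/Agent/V11192/Torse/Defs.lean`. In fact the spherical image of
every small piece of a C¹-smooth torse has area zero.

Idea. Locally the surface is the graph of a C¹ function `v`, and through every point of the domain
passes a segment along which the gradient of `v` is constant. It meets a line `y = q` with rational
`q` (or `x = q`), and we may prescribe a rational `r` such that it has length at least `r` on both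
sides. Choose one point `(a, q)` for each value of the gradient. The segments with different values
do not meet, hence the slope `s(a)` of the segment is a Lipschitz function of `a`, and so is the
derivative `g(a)` of `v` in its direction, since `r g(a)` is a difference of two values of `v` at
points that are Lipschitz functions of `a`. The gradient is `(m, g(a) - s(a) m)` with `m` the
partial derivative with respect to `x` at `(a, q)`: a Lipschitz image of a part of the graph of
this function, which is a null set.
-/

namespace Pool.Agent.Results.MP_81590e_gt.TorseBECP

open Pool.Agent.V11192.Torse
open scoped Manifold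

/-- Every C¹-smooth torse `f : M → 𝔼³` is a surface of class BECP; moreover every point has an open
neighbourhood whose spherical image has area zero. -/
theorem result {M : Type*} [TopologicalSpace M] [ChartedSpace E2 M] [IsManifold 𝓘(ℝ, E2) 1 M]
    (f : M → E3) (hf : IsSurface f) (ht : IsTorse f) :
    IsBECP f ∧ ∀ p : M, ∃ G : Set M, IsOpen G ∧ p ∈ G ∧
      ∀ n : M → E3, IsUnitNormal f G n → sphereArea (n '' G) = 0 := by
  refine ⟨isBECP_of_isTorse hf ht, fun p => ?_⟩
  obtain ⟨G, hG, hp, -, h⟩ := local_null hf ht p
  exact ⟨G, hG, hp, h⟩

end Pool.Agent.Results.MP_81590e_gt.TorseBECP
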